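import Pool.Agent.Lib.MP_abca01_gt.Sym.SIff

/-!
# Cone volume measures with an axis of symmetry

Let `G` be a finite group of linear isometries of `ℝⁿ` whose fixed vectors are exactly the multiples of a
vector `v` (`v = 0` is allowed), and let `μ` be a nontrivial finite `G`-invariant Borel measure on the unit
sphere. Assume that every `G`-invariant proper subspace `L` containing `v` satisfies the subspace
concentration condition, or is one-sided (near `L` the measure `μ` vanishes on one side of the hyperplane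
`v^⊥`); this holds for every `μ` on the closed hemisphere `⟪u, v⟫ ≥ 0`. Then `μ` is the cone volume measure
of a `G`-invariant convex body containing the origin if and only if every `G`-invariant subspace
`L ≠ 0` of `v^⊥` satisfies the subspace concentration condition.
-/

set_option autoImplicit false

open MeasureTheory Set Metric
open scoped RealInnerProductSpace

namespace Pool.Agent.Results.MP_abca01_gt.AxisSymmetric

/-- Euclidean space `ℝⁿ`. -/
abbrev V (n : ℕ) := EuclideanSpace ℝ (Fin n)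

/-- The cone volume measure of `K` at `ω`: the volume of the set of the points `s • y`,
`0 ≤ s ≤ 1`, where `y` is a point of `K` at which some `u ∈ ω` is an exterior normal of `K`. -/
noncomputable def coneVol {n : ℕ} (K ω : Set (V n)) : ENNReal :=
  volume {x | ∃ u ∈ ω, ∃ y ∈ K, (∀ z ∈ K, ⟪z, u⟫ ≤ ⟪y, u⟫) ∧ ∃ s ∈ Icc (0 : ℝ) 1, x = s • y}

/-- The vectors fixed by `G` are exactly the multiples of `v`. -/
def FixesExactly {n : ℕ} (G : Subgroup (V n ≃ₗᵢ[ℝ] V n)) (v : V n) : Prop :=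
  ∀ x, (∀ g ∈ G, g x = x) ↔ ∃ c : ℝ, x = c • v

/-- `μ` is a nontrivial finite measure on the unit sphere, invariant under `G`. -/
def Admissible {n : ℕ} (G : Subgroup (V n ≃ₗᵢ[ℝ] V n)) (μ : Measure (V n)) : Prop :=
  IsFiniteMeasure μ ∧ μ ≠ 0 ∧ μ (sphere 0 1)ᶜ = 0 ∧
    ∀ g ∈ G, ∀ ω, MeasurableSet ω → μ (g ⁻¹' ω) = μ ω

/-- The subspace `L` is invariant under `G`. -/
def Invariant {n : ℕ} (G : Subgroup (V n ≃ₗᵢ[ℝ] V n)) (L : Submodule ℝ (V n)) : Prop :=
  ∀ g ∈ G, ∀ x ∈ L, g x ∈ L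

/-- The subspace concentration condition at `L`: `μ(L) ≤ (dim L / n) |μ|`, and in the case of equality
`μ` is concentrated on `L ∪ L'` for some complementary subspace `L'`. -/
def Concentration {n : ℕ} (μ : Measure (V n)) (L : Submodule ℝ (V n)) : Prop :=
  (n : ℝ) * μ.real L ≤ Module.finrank ℝ L * μ.real univ ∧
    ((n : ℝ) * μ.real L = Module.finrank ℝ L * μ.real univ →
      ∃ L' : Submodule ℝ (V n), IsCompl L L' ∧ μ ((L : Set (V n)) ∪ L')ᶜ = 0)

/-- Near `L` the measure `μ` vanishes on one side of the hyperplane `v^⊥`. -/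
def OneSided {n : ℕ} (v : V n) (μ : Measure (V n)) (L : Submodule ℝ (V n)) : Prop :=
  ∃ ε : ℝ, 0 < ε ∧ (μ {u | infDist u (L : Set (V n)) < ε ∧ 0 < ⟪u, v⟫} = 0 ∨
    μ {u | infDist u (L : Set (V n)) < ε ∧ ⟪u, v⟫ < 0} = 0)

/-- `μ` is the cone volume measure of a `G`-invariant convex body containing the origin. -/
def IsConeVolume {n : ℕ} (G : Subgroup (V n ≃ₗᵢ[ℝ] V n)) (μ : Measure (V n)) : Prop :=
  ∃ K : Set (V n), IsCompact K ∧ Convex ℝ K ∧ (interior K).Nonempty ∧ 0 ∈ K ∧
    (∀ g ∈ G, g '' K = K) ∧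
    ∀ ω : Set (V n), MeasurableSet ω → ω ⊆ sphere 0 1 → coneVol K ω = μ ω

theorem result (n : ℕ) (v : V n) (G : Subgroup (V n ≃ₗᵢ[ℝ] V n)) [Finite G]
    (hG : FixesExactly G v) (μ : Measure (V n)) (hμ : Admissible G μ)
    (hP : ∀ L : Submodule ℝ (V n), Invariant G L → v ∈ L → L ≠ ⊤ →
      Concentration μ L ∨ OneSided v μ L) :
    IsConeVolume G μ ↔ ∀ L : Submodule ℝ (V n), Invariant G L → L ≠ ⊥ →
      (∀ x ∈ L, ⟪x, v⟫ = 0) → Concentration μ L := by
  obtain ⟨hfin, hμ0, hsph, hinv⟩ := hμ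
  have hfr : Module.finrank ℝ (EuclideanSpace ℝ (Fin n)) = n := finrank_euclideanSpace_fin
  have hn : 0 < n := by
    rcases Nat.eq_zero_or_pos n with rfl | h
    · exfalso
      apply hμ0
      have h1 : (sphere (0 : V 0) 1)ᶜ = univ := by
        rw [eq_univ_iff_forall]
        intro x hx
        rw [mem_sphere_zero_iff_norm, Subsingleton.elim x 0, norm_zero] at hx
        exact zero_ne_one hx
      rw [h1, Measure.measure_univ_eq_zero] at hsph
      exact hsph
    · exact h
  have hscc : ∀ L : Submodule ℝ (V n), Lib.MP_abca01_gt.Sym.SCC μ L ↔ Concentration μ L := by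
    intro L
    unfold Lib.MP_abca01_gt.Sym.SCC Concentration
    rw [hfr]
  have hch := Lib.MP_abca01_gt.Sym.char_axis (fun g hg => (hG v).2 ⟨1, (one_smul ℝ v).symm⟩ g hg)
    (fun x hx => (hG x).1 hx) μ hμ0 (by rw [hfr]; exact hn) hinv hsph (by
      intro L hL hv hL'
      rcases hP L hL hv hL' with h | h
      · exact Or.inl ((hscc L).2 h)
      · exact Or.inr h)
  constructor
  · rintro ⟨K, h1, h2, h3, h4, h5, h6⟩ L hL hL' hperp
    refine (hscc L).1 (hch.1 ⟨K, h1, h2, h3, h4, ?_, h6⟩ L hL hL' hperp)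
    intro g hg x hx
    rw [← h5 g hg]
    exact ⟨x, hx, rfl⟩
  · intro h
    obtain ⟨K, h1, h2, h3, h4, h5, h6⟩ := hch.2 fun L hL hL' hperp =>
      (hscc L).2 (h L hL hL' hperp)
    exact ⟨K, h1, h2, h3, h4, fun g hg => h5.image hg, h6⟩

end Pool.Agent.Results.MP_abca01_gt.AxisSymmetric
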