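import Pool.Agent.Lib.MP_abca01_gt.Link.Main

/-!
# Cone volume measures concentrated on a closed hemisphere

Let `mu` be a nontrivial finite Borel measure on the unit sphere, concentrated on the closed
hemisphere `{u | ⟪u, v⟫ ≥ 0}`. If `n * mu(L) < dim L * |mu|` for every nonzero linear subspace `L`
of the equator `v^⊥`, then `mu` is the cone volume measure of a convex body containing the origin.
There is no condition on the subspaces which meet the open hemisphere.

`coneVol K ω` is the volume of the union of the segments from the origin to the points of the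
boundary of `K` at which some vector of `ω` is an exterior normal, that is
`(1/n) ∫_ω h_K dS_K`.
-/

set_option autoImplicit false

open MeasureTheory Set Metric
open scoped RealInnerProductSpace

namespace Pool.Agent.Results.MP_abca01_gt.ClosedHemisphere

/-- The cone volume measure of `K` at `ω`: the volume of the set of the points `s • y`,
`0 ≤ s ≤ 1`, where `y` is a point of `K` at which some `u ∈ ω` is an exterior normal of `K`. -/
noncomputable def coneVol {n : ℕ} (K ω : Set (EuclideanSpace ℝ (Fin n))) : ENNReal :=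
  volume {x | ∃ u ∈ ω, ∃ y ∈ K, (∀ z ∈ K, ⟪z, u⟫ ≤ ⟪y, u⟫) ∧ ∃ s ∈ Icc (0 : ℝ) 1, x = s • y}

theorem result (n : ℕ) (hn : 2 ≤ n) (mu : Measure (EuclideanSpace ℝ (Fin n)))
    [IsFiniteMeasure mu] (hmu : mu ≠ 0) (hsph : mu (sphere (0 : EuclideanSpace ℝ (Fin n)) 1)ᶜ = 0)
    (v : EuclideanSpace ℝ (Fin n)) (hv : ‖v‖ = 1) (hhemi : mu {u | ⟪u, v⟫ < 0} = 0)
    (hscc : ∀ L : Submodule ℝ (EuclideanSpace ℝ (Fin n)), L ≠ ⊥ → (∀ z ∈ L, ⟪z, v⟫ = 0) →
      (n : ℝ) * mu.real (L : Set (EuclideanSpace ℝ (Fin n))) <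
        Module.finrank ℝ L * mu.real univ) :
    ∃ K : Set (EuclideanSpace ℝ (Fin n)), IsCompact K ∧ Convex ℝ K ∧ (interior K).Nonempty ∧
      0 ∈ K ∧ ∀ ω : Set (EuclideanSpace ℝ (Fin n)), MeasurableSet ω → ω ⊆ sphere 0 1 →
        coneVol K ω = mu ω := by
  have _ := hn
  have hfr : Module.finrank ℝ (EuclideanSpace ℝ (Fin n)) = n := finrank_euclideanSpace_fin
  apply Lib.MP_abca01_gt.Link.hemi_theorem mu v hv hmu hsph hhemi
  intro L hL hLv
  rw [hfr]
  exact hscc L hL hLv

end Pool.Agent.Results.MP_abca01_gt.ClosedHemisphere
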