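import Pool.Agent.Lib.MP_abca01_gt.Plane3.Main3

/-!
# Cone volume measures on the two-sphere and their even parts on subspaces

Let `μ` be a nontrivial finite Borel measure on the unit sphere of `ℝ³`. Condition (N): for each linear
subspace `L ≠ 0, ℝ³` and each measure `ν ≤ μ` which is even on `L` one has
`3 ν(L) ≤ dim L * |μ|`, with equality only if `μ` is concentrated on `L ∪ L'` for a complement `L'`.
If `μ` is even on each `L` with `3 μ(L) ≥ dim L * |μ|`, or (N) fails, then `μ` is the cone volume
measure of a convex body containing the origin if and only if (N) holds. Thus (N) is necessary for all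
measures, and sufficient for the measures which are even on their heavy subspaces.
-/

set_option autoImplicit false

open MeasureTheory Set Metric
open scoped RealInnerProductSpace

namespace Pool.Agent.Results.MP_abca01_gt.EvenMinorants

/-- Euclidean space `ℝ³`. -/
abbrev V := EuclideanSpace ℝ (Fin 3)

/-- The cone volume measure of `K` at `ω`: the volume of the set of the points `s • y`,
`0 ≤ s ≤ 1`, where `y` is a point of `K` at which some `u ∈ ω` is an exterior normal of `K`. -/
noncomputable def coneVol (K ω : Set V) : ENNReal :=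
  volume {x | ∃ u ∈ ω, ∃ y ∈ K, (∀ z ∈ K, ⟪z, u⟫ ≤ ⟪y, u⟫) ∧ ∃ s ∈ Icc (0 : ℝ) 1, x = s • y}

/-- `μ` is the cone volume measure of a convex body containing the origin. -/
def IsConeVolume (μ : Measure V) : Prop :=
  ∃ K : Set V, IsCompact K ∧ Convex ℝ K ∧ (interior K).Nonempty ∧ 0 ∈ K ∧
    ∀ ω : Set V, MeasurableSet ω → ω ⊆ sphere 0 1 → coneVol K ω = μ ω

/-- The measure `ν` is even on the linear subspace `L`. -/
def EvenOn (ν : Measure V) (L : Submodule ℝ V) : Prop :=
  ∀ ω : Set V, MeasurableSet ω → ω ⊆ L → ν {u | -u ∈ ω} = ν ω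

/-- The subspace `L` is heavy: `μ(L) ≥ (dim L / 3) |μ|`. -/
def Heavy (μ : Measure V) (L : Submodule ℝ V) : Prop :=
  Module.finrank ℝ L * μ.real univ ≤ 3 * μ.real (L : Set V)

/-- Condition (N): for each proper subspace `L ≠ 0` and each `ν ≤ μ` which is even on `L` one has
`ν(L) ≤ (dim L / 3) |μ|`, and in the case of equality `μ` is concentrated on `L ∪ L'` for some
complementary subspace `L'`. -/
def EvenConcentrated (μ : Measure V) : Prop :=
  ∀ L : Submodule ℝ V, L ≠ ⊥ → L ≠ ⊤ → ∀ ν : Measure V, ν ≤ μ → EvenOn ν L →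
    3 * ν.real (L : Set V) ≤ Module.finrank ℝ L * μ.real univ ∧
    (3 * ν.real (L : Set V) = Module.finrank ℝ L * μ.real univ →
      ∃ L' : Submodule ℝ V, IsCompl L L' ∧ μ ((L : Set V) ∪ L')ᶜ = 0)

theorem result (μ : Measure V) [IsFiniteMeasure μ] (hμ : μ ≠ 0) (hsph : μ (sphere 0 1)ᶜ = 0)
    (hP : (∀ L : Submodule ℝ V, L ≠ ⊥ → L ≠ ⊤ → Heavy μ L → EvenOn μ L) ∨
      ¬ EvenConcentrated μ) :
    IsConeVolume μ ↔ EvenConcentrated μ := by
  refine Lib.MP_abca01_gt.Plane3.main3 hμ hsph ?_
  intro h
  rcases hP with h1 | h1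
  · exact h1
  · exact absurd h h1

end Pool.Agent.Results.MP_abca01_gt.EvenMinorants
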