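import Pool.Agent.Lib.MP_abca01_gt.VolDeriv
import Pool.Agent.Lib.MP_abca01_gt.Variation
import Pool.Agent.Lib.MP_abca01_gt.Overlap
import Pool.Agent.Lib.MP_abca01_gt.Borel
import Pool.Agent.Lib.MP_abca01_gt.QGeom
import Pool.Agent.Lib.MP_abca01_gt.Ball
import Pool.Agent.Lib.MP_abca01_gt.ExistsMin
import Pool.Agent.Lib.MP_abca01_gt.Energy
import Pool.Agent.Lib.MP_abca01_gt.Cap
import Pool.Agent.Lib.MP_abca01_gt.Hemi
import Pool.Agent.Lib.MP_abca01_gt.PTri
import Pool.Agent.Lib.MP_abca01_gt.PPoly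
import Pool.Agent.Lib.MP_abca01_gt.PShoot
import Pool.Agent.Lib.MP_abca01_gt.PClosure
import Pool.Agent.Lib.MP_abca01_gt.PApprox
import Pool.Agent.Lib.MP_abca01_gt.PSuff
import Pool.Agent.Lib.MP_abca01_gt.PEquality
import Pool.Agent.Lib.MP_abca01_gt.PUpper
import Pool.Agent.Lib.MP_abca01_gt.PNec

/-!
# Cone volume measures on a closed half circle

A nontrivial finite Borel measure `mu` on the unit circle that is concentrated on the closed half
circle `⟪u, v⟫ ≥ 0` with end points `e`, `-e` is the cone volume measure of a planar convex body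
containing the origin if and only if `2 √(mu {e} * mu {-e})` is less than the mass of the open half
circle, or equal to it and the restriction of `mu` to the open half circle is concentrated at one
point (or zero).

`coneVol K ω` is the area of the union of the segments from the origin to the points of `K` at which
some vector of `ω` is an exterior normal, that is `(1/2) ∫_ω h_K dS_K`.
-/

set_option autoImplicit false

open MeasureTheory Set Metric
open scoped RealInnerProductSpace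

namespace Pool.Agent.Results.MP_abca01_gt.HalfCircle

/-- The cone volume measure of `K` at `ω`: the area of the set of the points `s • y`,
`0 ≤ s ≤ 1`, where `y` is a point of `K` at which some `u ∈ ω` is an exterior normal of `K`. -/
noncomputable def coneVol (K ω : Set (EuclideanSpace ℝ (Fin 2))) : ENNReal :=
  volume {x | ∃ u ∈ ω, ∃ y ∈ K, (∀ z ∈ K, ⟪z, u⟫ ≤ ⟪y, u⟫) ∧ ∃ s ∈ Icc (0 : ℝ) 1, x = s • y}

theorem result (mu : Measure (EuclideanSpace ℝ (Fin 2))) [IsFiniteMeasure mu] (hmu : mu ≠ 0)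
    (hsph : mu (sphere (0 : EuclideanSpace ℝ (Fin 2)) 1)ᶜ = 0)
    (e v : EuclideanSpace ℝ (Fin 2)) (he : ‖e‖ = 1) (hv : ‖v‖ = 1) (hev : ⟪e, v⟫ = 0)
    (hhalf : mu {u | ⟪u, v⟫ < 0} = 0) :
    (∃ K : Set (EuclideanSpace ℝ (Fin 2)), IsCompact K ∧ Convex ℝ K ∧ (interior K).Nonempty ∧
      0 ∈ K ∧ ∀ ω : Set (EuclideanSpace ℝ (Fin 2)), MeasurableSet ω → ω ⊆ sphere 0 1 →
        coneVol K ω = mu ω) ↔
    (2 * √(mu.real {e} * mu.real {-e}) < mu.real {u | 0 < ⟪u, v⟫} ∨
      (2 * √(mu.real {e} * mu.real {-e}) = mu.real {u | 0 < ⟪u, v⟫} ∧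
        ∃ w : EuclideanSpace ℝ (Fin 2), mu ({u | 0 < ⟪u, v⟫} \ {w}) = 0)) := by
  have hfr : Lib.MP_abca01_gt.Frame e v := ⟨he, hv, hev, finrank_euclideanSpace_fin⟩
  have tri := Lib.MP_abca01_gt.stmtTri
  have poly := Lib.MP_abca01_gt.stmtPoly Lib.MP_abca01_gt.stmtOverlap
  have borel := Lib.MP_abca01_gt.stmtBorel Lib.MP_abca01_gt.stmtOverlap
  have q := Lib.MP_abca01_gt.stmtQGeom
  have en := Lib.MP_abca01_gt.stmtEnergy Lib.MP_abca01_gt.stmtExistsMin q
    Lib.MP_abca01_gt.stmtBall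
  have var := Lib.MP_abca01_gt.stmtVariation Lib.MP_abca01_gt.stmtVolDeriv
  have hemi := Lib.MP_abca01_gt.stmtHemi (Lib.MP_abca01_gt.stmtCap en q var borel)
  have suff := Lib.MP_abca01_gt.stmtSuff tri poly Lib.MP_abca01_gt.stmtShoot
    Lib.MP_abca01_gt.stmtClosure Lib.MP_abca01_gt.stmtApprox borel
  have eq := Lib.MP_abca01_gt.stmtEquality tri poly borel hemi
  have nec := Lib.MP_abca01_gt.stmtNec tri Lib.MP_abca01_gt.stmtUpper
  constructor
  · rintro ⟨K, hK, hconv, -, h0, hcv⟩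
    exact nec _ volume mu e v K hfr hsph hhalf hK hconv h0 hcv
  · rintro (h | ⟨h, w, hw⟩)
    · exact suff _ volume mu e v hfr hmu hsph hhalf h
    · exact eq _ volume mu e v w hfr hmu hsph hhalf h hw

end Pool.Agent.Results.MP_abca01_gt.HalfCircle
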